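import Pool.Agent.H3NS.Flex

set_option autoImplicit false

/-!
Flexibility of smooth periodic solutions of the Navier-Stokes equations under forces which are small in
the critical norm of `L¹(0, T; FB^{-1}_{1,r})`, `r > 2`: on `[0, T)`, `0 < T ≤ ∞`, every smooth path `w` of
divergence-free periodic fields whose mean velocity is the one given by the force `f` is followed by a
smooth solution `u` for a smooth force `g` arbitrarily near `f`. The solution is on the path at all times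
`t_j`, it is near the path in the norm of `FB^{-1}_{1,r}` uniformly in time, and it is near it in `L^p` of
time with values in the bounded fields for `p < 2`. In particular the graph of the solution map is dense
in the critical topologies with `r > 2`.
-/

open MeasureTheory Set
open scoped ContDiff ENNReal

namespace Pool.Agent.H3NS.Out.CriticalForces

open Pool.Agent.H356R3.NS

/-- The interval `[0, T)`, `T` the supremum of the `t j` (possibly `∞`). -/
def Dom (t : ℕ → ℝ) : Set ℝ := {s | 0 ≤ s ∧ ∃ j, s < t j}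

/-- The distance of two periodic fields in the norm `|∫ v| + ‖v‖_{FB^{-1}_{1,r}}`. -/
noncomputable def critDist (r : ℝ) (v w : R3 → R3) : ℝ≥0∞ :=
  ‖fc (fun x => v x - w x) 0‖ₑ + critNorm r (fc fun x => v x - w x)

/-- The distance in the supremum norm. -/
noncomputable def supDist (v w : R3 → R3) : ℝ≥0∞ := ⨆ x, ‖v x - w x‖ₑ

/-- `h` is `C^∞` on `I × ℝ³` and `ℤ³`-periodic in `x`. -/
structure SmoothPeriodic (I : Set ℝ) (h : ℝ → R3 → R3) : Prop where
  smooth : ContDiffOn ℝ ∞ (fun z : ℝ × R3 => h z.1 z.2) (I ×ˢ univ)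
  periodic : ∀ t ∈ I, ∀ x j, h t (x + Pi.single j 1) = h t x

/-- `(u, q)` is a smooth periodic solution of the Navier-Stokes equations with viscosity `ν` and force `g`
on the time interval `I`. For `I = [0, ∞)` this is an admissible periodic solution for the initial velocity
`u 0`. -/
structure Solution (I : Set ℝ) (ν : ℝ) (g u : ℝ → R3 → R3) (q : ℝ → R3 → ℝ) : Prop where
  smooth_u : ContDiffOn ℝ ∞ (fun z : ℝ × R3 => u z.1 z.2) (I ×ˢ univ)
  smooth_q : ContDiffOn ℝ ∞ (fun z : ℝ × R3 => q z.1 z.2) (I ×ˢ univ)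
  periodic_u : ∀ t ∈ I, ∀ x j, u t (x + Pi.single j 1) = u t x
  periodic_q : ∀ t ∈ I, ∀ x j, q t (x + Pi.single j 1) = q t x
  momentum : ∀ t ∈ I, ∀ x i,
    derivWithin (fun s => u s x i) I t + ∑ j, u t x j * pd j (fun y => u t y i) x
      = ν * ∑ j, pd j (pd j fun y => u t y i) x - pd i (q t) x + g t x i
  divFree : ∀ t ∈ I, ∀ x, ∑ i, pd i (fun y => u t y i) x = 0

theorem result (ν : ℝ) (hν : 0 < ν) (t : ℕ → ℝ) (ht : StrictMono t) (ht0 : t 0 = 0)
    (r p ε : ℕ → ℝ) (hr : ∀ j, 2 < r j) (hp : ∀ j, 1 ≤ p j ∧ p j < 2) (hε : ∀ j, 0 < ε j)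
    (f w : ℝ → R3 → R3) (hf : SmoothPeriodic (Dom t) f) (hw : SmoothPeriodic (Dom t) w)
    (hdiv : ∀ s ∈ Dom t, ∀ x, ∑ i, pd i (fun y => w s y i) x = 0)
    (hmean : ∀ s ∈ Dom t, ∀ i, ∫ y in Icc (0 : R3) 1, w s y i
      = (∫ y in Icc (0 : R3) 1, w 0 y i) + ∫ τ in (0 : ℝ)..s, ∫ y in Icc (0 : R3) 1, f τ y i) :
    ∃ (g u : ℝ → R3 → R3) (q : ℝ → R3 → ℝ), SmoothPeriodic (Dom t) g ∧ Solution (Dom t) ν g u q ∧
      ∀ j, u (t j) = w (t j) ∧
        (∀ s ∈ Icc (t j) (t (j + 1)), critDist (r j) (u s) (w s) ≤ ENNReal.ofReal (ε j)) ∧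
        ∫⁻ s in Ioc (t j) (t (j + 1)), (critDist (r j) (g s) (f s) + supDist (u s) (w s) ^ p j)
          ≤ ENNReal.ofReal (ε j) ∧
        ((∃ m : R3, ∀ s ∈ Icc (t j) (t (j + 1)), f s = 0 ∧ w s = fun _ => m) →
          ∀ s ∈ Icc (t j) (t (j + 1)), g s = 0 ∧ u s = w s) := by
  have hlt : ∀ j, t j < t (j + 1) := fun j => ht (by omega)
  obtain ⟨U, P, g, hU, hP, hPp, hg, hmom, hdv, hnode, hclose, hint, hrest⟩ :=
    Pool.Agent.H3NS.flex hν ht ht0 hr hp hε
      (f := f) (w := w) ⟨fun i => contDiffOn_pi.1 hf.smooth i, hf.periodic⟩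
      ⟨fun i => contDiffOn_pi.1 hw.smooth i, hw.periodic⟩ hdiv hmean
  refine ⟨g, U, P, ⟨contDiffOn_pi.2 fun i => hg.sm i, hg.per⟩,
    ⟨contDiffOn_pi.2 fun i => hU.sm i, hP, hU.per, hPp, hmom, hdv⟩,
    fun j => ⟨hnode j, hclose j, hint j, fun hj => ?_⟩⟩
  obtain ⟨m, hm⟩ := hj
  refine hrest j fun s hs => ⟨(hm s hs).1, ?_, fun x => ?_⟩
  · rw [(hm s hs).2, (hm (t j) ⟨le_rfl, (hlt j).le⟩).2]
  · rw [(hm s hs).2]

end Pool.Agent.H3NS.Out.CriticalForces
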